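import Pool.Agent.Helper57.Core2.Squares

/-! `case4`: no minimal counterexample with `Om G` of order four. -/

set_option autoImplicit false

namespace Pool.Agent.Helper57.Core2

open Subgroup Pool.Agent.Helper5.Core2

universe u

section Case4

variable {G : Type u} [Group G]

/-- the subgroup `center · ⟨w⟩` -/
def CZ (w : G) : Subgroup G where
  carrier := {y | ∃ ζ ∈ center G, ∃ i : ℤ, y = ζ * w ^ i}
  mul_mem' := by
    rintro a b ⟨ζ, hζ, i, rfl⟩ ⟨ζ', hζ', j, rfl⟩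
    refine ⟨ζ * ζ', mul_mem hζ hζ', i + j, ?_⟩
    have h := mem_center_iff.mp hζ' (w ^ i)
    calc ζ * w ^ i * (ζ' * w ^ j) = ζ * (w ^ i * ζ') * w ^ j := by group
      _ = ζ * (ζ' * w ^ i) * w ^ j := by rw [h]
      _ = ζ * ζ' * w ^ (i + j) := by rw [zpow_add]; group
  one_mem' := ⟨1, one_mem _, 0, by simp⟩
  inv_mem' := by
    rintro a ⟨ζ, hζ, i, rfl⟩
    refine ⟨ζ⁻¹, inv_mem hζ, -i, ?_⟩
    have h := mem_center_iff.mp (inv_mem hζ) (w ^ (-i))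
    calc (ζ * w ^ i)⁻¹ = w ^ (-i) * ζ⁻¹ := by group
      _ = ζ⁻¹ * w ^ (-i) := h

theorem key4 (h : MinCE G) (hC : (CC G).index = 2) {x : G} (hx : x ^ 2 ∉ center G)
    (N : Subgroup G) [hNn : N.Normal] {g0 z0 : G} (hg0 : g0 ∈ N) (hg0C : g0 ∉ CC G)
    (hN : ∀ t ∈ Om G, t ∈ N → t = 1 ∨ t = z0)
    (n2 : ∀ e ∈ CC G, (∀ g ∈ CC G, K e g = 1 ∨ K e g = z0) → ∀ g ∈ CC G, K e g = 1)
    {e : G} (he : e ∈ CC G) (hne : ∃ g ∈ CC G, K e g ≠ 1) (heN : e ^ 2 ∈ N) :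
    e ^ 2 ∉ center G ∧ ∀ c ∈ CC G, ∃ ζ ∈ center G, ∃ i : ℤ, c ^ 2 = ζ * (e ^ 2) ^ i := by
  have hgeN : (g0 * e) ^ 2 ∈ N := by
    have e1 : (g0 * e) ^ 2 = g0 * (e * g0 * e⁻¹) * e ^ 2 := by simp only [pow_two]; group
    rw [e1]
    exact mul_mem (mul_mem hg0 (hNn.conj_mem g0 hg0 e)) heN
  have hPN : PP g0 e ≤ N := by
    unfold PP
    refine sup_le (sup_le ?_ ?_) ?_
    · rw [zpowers_le]; exact pow_mem hg0 2
    · rw [zpowers_le]; exact heN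
    · rw [zpowers_le]; exact hgeN
  have hno : ¬ ∀ g ∈ CC G, K e g ∈ N := by
    intro hall
    obtain ⟨g, hg, hne⟩ := hne
    exact hne (n2 e he (fun g hg => hN _ (K_Om hC he hg) (hall g hg)) g hg)
  rcases h.c.star g0 e with h1 | h1 | h1
  · have hL : PP g0 e ≤ CZ (e ^ 2) := by
      unfold PP
      refine sup_le (sup_le ?_ ?_) ?_
      · rw [zpowers_le]; exact ⟨g0 ^ 2, fact_a hC hg0C, 0, by simp⟩
      · rw [zpowers_le]; exact ⟨1, one_mem _, 1, by simp⟩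
      · rw [zpowers_le]
        exact ⟨(g0 * e) ^ 2, fact_a hC (mul_not_mem_left hg0C he), 0, by simp⟩
    have hall : ∀ c ∈ CC G, c ^ 2 ∈ CZ (e ^ 2) := by
      intro c hc
      have h2 : K g0 c ∈ CZ (e ^ 2) := hL (h1 c)
      have h3 : g0 * c * g0⁻¹ * c ∈ CZ (e ^ 2) := ⟨_, fact_b hC hg0C hc, 0, by simp⟩
      have e1 : c ^ 2 = (K g0 c)⁻¹ * (g0 * c * g0⁻¹ * c) := by
        unfold K; simp only [pow_two]; group
      rw [e1]
      exact mul_mem (inv_mem h2) h3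
    refine ⟨?_, hall⟩
    intro hec
    apply hx
    by_cases hxC : x ∈ CC G
    · obtain ⟨ζ, hζ, i, hi⟩ := hall x hxC
      rw [hi]
      exact mul_mem hζ (zpow_mem hec i)
    · exact fact_a hC hxC
  · exact absurd (fun g _ => hPN (h1 g)) hno
  · exfalso
    apply hno
    intro g _
    have h2 := hPN (h1 g)
    have e1 : K e g = g0⁻¹ * (g0 * e * g * (g0 * e)⁻¹ * g⁻¹) * (g * g0 * g⁻¹) := by
      unfold K; group
    rw [e1]
    exact mul_mem (mul_mem (inv_mem hg0) h2) (hNn.conj_mem g0 hg0 g)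

theorem K_of_Sq {s g : G} (hs : s ∈ Sq G) (hg : g ∈ CC G) : K s g = 1 :=
  K_eq_one.mpr (Sq_comm_CC hs hg)

/-- membership in `C₀ Z(C)` -/
def PD (c : G) : Prop :=
  c ∈ CC G ∧ ∃ s ∈ CC G, (∀ g ∈ CC G, K s g = 1) ∧ (c * s) ^ 2 ∈ center G

theorem PD.mul (hC : (CC G).index = 2) {c d : G} (h1 : PD c) (h2 : PD d) : PD (c * d) := by
  obtain ⟨hc, s, hs, hs1, hs2⟩ := h1
  obtain ⟨hd, t, ht, ht1, ht2⟩ := h2
  refine ⟨mul_mem hc hd, s * t, mul_mem hs ht, ?_, ?_⟩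
  · intro g hg
    rw [KL hC ht hg, hs1 g hg, ht1 g hg, one_mul]
  · have h3 : s * d = d * s := K_eq_one.mp (hs1 d hd)
    have e1 : c * d * (s * t) = (c * s) * (d * t) := by
      calc c * d * (s * t) = c * (d * s) * t := by group
        _ = c * (s * d) * t := by rw [h3]
        _ = (c * s) * (d * t) := by group
    rw [e1, mul_sq hC (mul_mem hc hs) (mul_mem hd ht)]
    exact mul_mem (mul_mem hs2 ht2) (K_center hC (mul_mem hc hs) (mul_mem hd ht))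

theorem PD_or (hC : (CC G).index = 2) (hsc : ∀ x y : G, x ^ 2 * y ^ 2 = y ^ 2 * x ^ 2) {e : G}
    (he : e ∈ CC G) (hcov : ∀ c ∈ CC G, ∃ ζ ∈ center G, ∃ i : ℤ, c ^ 2 = ζ * (e ^ 2) ^ i)
    {c : G} (hc : c ∈ CC G) : PD c ∨ PD (c * e) := by
  obtain ⟨ζ, hζ, i, hi⟩ := hcov c hc
  have hS : ∀ j : ℤ, (e ^ 2) ^ j ∈ Sq G := fun j => zpow_mem (sq_mem_Sq e) j
  have hSC := Sq_le_CC hsc
  rcases Int.even_or_odd i with ⟨j, hj⟩ | ⟨j, hj⟩
  · left
    refine ⟨hc, (e ^ 2) ^ (-j), hSC (hS _), fun g hg => K_of_Sq (hS _) hg, ?_⟩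
    have h1 : Commute c ((e ^ 2) ^ (-j)) := (Sq_comm_CC (hS (-j)) hc).symm
    have e1 : (c * (e ^ 2) ^ (-j)) ^ 2 = ζ := by
      have h2 : (e ^ 2) ^ (j + j) * ((e ^ 2) ^ (-j)) ^ 2 = 1 := by
        generalize e ^ 2 = w
        group
      rw [h1.mul_pow, hi, hj, mul_assoc, h2, mul_one]
    rw [e1]
    exact hζ
  · right
    refine ⟨mul_mem hc he, (e ^ 2) ^ (-(j + 1)), hSC (hS _), fun g hg => K_of_Sq (hS _) hg, ?_⟩
    have h1 : Commute (c * e) ((e ^ 2) ^ (-(j + 1))) :=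
      (Sq_comm_CC (hS (-(j + 1))) (mul_mem hc he)).symm
    have hKc := K_center hC hc he
    have e1 : (c * e * (e ^ 2) ^ (-(j + 1))) ^ 2 = ζ * K c e := by
      rw [h1.mul_pow, mul_sq hC hc he, hi, hj]
      have h2 := mem_center_iff.mp hKc ((((e ^ 2) ^ (-(j + 1))) ^ 2))
      calc ζ * (e ^ 2) ^ (2 * j + 1) * e ^ 2 * K c e * ((e ^ 2) ^ (-(j + 1))) ^ 2
          = ζ * (e ^ 2) ^ (2 * j + 1) * e ^ 2 * (K c e * ((e ^ 2) ^ (-(j + 1))) ^ 2) := by group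
        _ = ζ * ((e ^ 2) ^ (2 * j + 1) * e ^ 2 * ((e ^ 2) ^ (-(j + 1))) ^ 2) * K c e := by
            rw [← h2]; group
        _ = ζ * K c e := by
            have : (e ^ 2) ^ (2 * j + 1) * e ^ 2 * ((e ^ 2) ^ (-(j + 1))) ^ 2 = 1 := by
              generalize e ^ 2 = w
              group
            rw [this, mul_one]
    rw [e1]
    exact mul_mem hζ hKc

theorem PD_pair (hC : (CC G).index = 2) (hsc : ∀ x y : G, x ^ 2 * y ^ 2 = y ^ 2 * x ^ 2) {e : G}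
    (he : e ∈ CC G) (hcov : ∀ c ∈ CC G, ∃ ζ ∈ center G, ∃ i : ℤ, c ^ 2 = ζ * (e ^ 2) ^ i)
    {c d : G} (hc : c ∈ CC G) (hd : d ∈ CC G) : PD c ∨ PD d ∨ PD (c * d) := by
  rcases PD_or hC hsc he hcov hc with h1 | h1
  · exact Or.inl h1
  rcases PD_or hC hsc he hcov hd with h2 | h2
  · exact Or.inr (Or.inl h2)
  right; right
  obtain ⟨-, s, hs, hs1, hs2⟩ := PD.mul hC h1 h2
  have hKc := K_center hC he hd
  have hsq : e ^ 2 ∈ CC G := Sq_le_CC hsc (sq_mem_Sq e)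
  refine ⟨mul_mem hc hd, K e d * (e ^ 2 * s), mul_mem (center_le_CC hKc) (mul_mem hsq hs), ?_, ?_⟩
  · intro g hg
    rw [K_central_left hKc, KL hC hs hg, hs1 g hg, mul_one]
    exact K_of_Sq (sq_mem_Sq e) hg
  · have h3 := mem_center_iff.mp hKc
    have e1 : c * d * (K e d * (e ^ 2 * s)) = c * e * (d * e) * s := by
      calc c * d * (K e d * (e ^ 2 * s)) = (c * d * K e d) * (e ^ 2 * s) := by group
        _ = K e d * (c * d) * (e ^ 2 * s) := by rw [h3]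
        _ = (K e d * c) * (d * e) * e * s := by simp only [pow_two]; group
        _ = (c * K e d) * (d * e) * e * s := by rw [h3]
        _ = c * (K e d * (d * e)) * e * s := by group
        _ = c * (e * d) * e * s := by rw [← K_mul]
        _ = c * e * (d * e) * s := by group
    rw [e1]
    exact hs2

theorem case4_aux [Finite G]
    (MC : ∀ {G : Type u} [Group G] [Finite G], IsC G → ∀ {z : G}, Mono z → ∀ {x c d : G},
      x ^ 2 ∉ center G → c ∈ CC G → d ∈ CC G → c * d ≠ d * c →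
      ∀ s ∈ CC G, s * c = c * s → s * d = d * s → ∀ g ∈ CC G, s * g = g * s)
    (Zc : ∀ {G : Type u} [Group G] [Finite G], IsC G → ∀ {z : G}, Mono z →
      (∀ x : G, x ^ 2 ∈ center G) → ∀ {ζ : G}, ζ ∈ center G → ζ ^ 2 ≠ 1 → (center G).index ≤ 4)
    (h : MinCE G) {x : G} (hx : x ^ 2 ∉ center G)
    (hC : (CC G).index = 2) (hΩ : Nat.card (Om G) = 4) : False := by
  have hsc : ∀ x y : G, x ^ 2 * y ^ 2 = y ^ 2 * x ^ 2 := Helper35.Core2.sq_comm h.c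
  obtain ⟨z0, z1, a1, b1, a2, b2, hz0, hz1, hz01, hz11, hz10, hOm, ha1, hb1, ha2, hb2, k1, k2,
    kaa, kab, kba, kbb, n2⟩ := structure4 h hC hx hΩ hsc
  have hz21 : z0 * z1 ≠ 1 := by
    intro h1
    apply hz10
    have hz0s : z0 * z0 = 1 := by rw [← pow_two]; exact hz0.2
    calc z1 = z0 * (z0 * z1) := by rw [← mul_assoc, hz0s, one_mul]
      _ = z0 := by rw [h1, mul_one]
  -- the quotient
  obtain ⟨N, hNn, hKN, hz1N, hmono⟩ := Helper4.Core2.exists_mono (zpowers z0)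
    (zpowers_normal hz0.1) (z := z1) (by
      intro hmem
      rcases zpowers_two hz0.2 hmem with h1 | h1
      · exact hz11 h1
      · exact hz10 h1)
  have hz0N : z0 ∈ N := hKN (mem_zpowers z0)
  have hQ : IsC (G ⧸ N) := Helper4.Core2.IsC.toQuotient h.c N
  obtain ⟨hzc, hzs⟩ := Helper95.Core2.mono_center hQ.two hmono
  have hzc' : ∀ g : G ⧸ N, (QuotientGroup.mk z1 : G ⧸ N) * g = g * QuotientGroup.mk z1 :=
    fun g => (mem_center_iff.mp hzc g).symm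
  have hzs' : (QuotientGroup.mk z1 : G ⧸ N) * QuotientGroup.mk z1 = 1 := by
    rw [← pow_two]; exact hzs
  have hz0q : (QuotientGroup.mk z0 : G ⧸ N) = 1 := (QuotientGroup.eq_one_iff z0).mpr hz0N
  -- images of elements of `CC G`
  have hCCq : ∀ c ∈ CC G, (QuotientGroup.mk c : G ⧸ N) ∈ CC (G ⧸ N) := by
    intro c hc
    rw [mem_CC]
    intro q
    obtain ⟨g, rfl⟩ := QuotientGroup.mk_surjective q
    rw [← QuotientGroup.mk_pow, ← QuotientGroup.mk_mul, ← QuotientGroup.mk_mul, mem_CC.mp hc g]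
  have hAC1 : AC (QuotientGroup.mk z1 : G ⧸ N) (QuotientGroup.mk a1) (QuotientGroup.mk b1) := by
    unfold AC
    have h1 := K_mul a1 b1
    rw [k1] at h1
    rw [← QuotientGroup.mk_mul, h1]
    rfl
  have hAC2 : AC (QuotientGroup.mk z1 : G ⧸ N) (QuotientGroup.mk a2) (QuotientGroup.mk b2) := by
    unfold AC
    have h1 := K_mul a2 b2
    rw [k2] at h1
    have h2 : (QuotientGroup.mk (a2 * b2) : G ⧸ N) =
        QuotientGroup.mk z0 * (QuotientGroup.mk z1 * QuotientGroup.mk (b2 * a2)) := by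
      rw [h1, mul_assoc]; rfl
    rw [← QuotientGroup.mk_mul, h2, hz0q, one_mul]
    rfl
  have hcq : ∀ {c d : G}, K c d = 1 →
      Commute (QuotientGroup.mk c : G ⧸ N) (QuotientGroup.mk d) := by
    intro c d hcd
    have h1 := K_eq_one.mp hcd
    change (QuotientGroup.mk c : G ⧸ N) * QuotientGroup.mk d = QuotientGroup.mk d * QuotientGroup.mk c
    rw [← QuotientGroup.mk_mul, h1]
    rfl
  have hsq := squares_two hmono hzc' hzs' (MC hQ hmono)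
    (fun hcl ζ hζ hζ2 => Zc hQ hmono hcl hζ hζ2) (hCCq _ ha1) (hCCq _ hb1) (hCCq _ ha2)
    (hCCq _ hb2) hAC1 hAC2 (hcq kaa) (hcq kba) (hcq kab) (hcq kbb)
  -- `G = C N`
  obtain ⟨g0, hg0N, hg0C⟩ : ∃ g0 ∈ N, g0 ∉ CC G := by
    by_contra hno
    push Not at hno
    have hall : ∀ g : G, g ∈ CC G := by
      intro g
      have hgen := generated hmono.1 hzs' hzc'
        (fun x y hx hy hxy hx1 hy1 hne => Helper95.Core2.mm2 hQ hmono hx hy hxy hx1 hy1 hne)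
        hsq hAC1 hAC2 (hcq kaa) (hcq kab) (hcq kba) (hcq kbb)
        ((CC G).map (QuotientGroup.mk' N))
        (mem_map_of_mem _ ha1) (mem_map_of_mem _ hb1) (mem_map_of_mem _ ha2)
        (mem_map_of_mem _ hb2) (mem_map_of_mem _ (center_le_CC hz1.1)) (QuotientGroup.mk g)
      obtain ⟨c, hc, hcg⟩ := mem_map.mp hgen
      have h1 : c⁻¹ * g ∈ N := QuotientGroup.eq.mp hcg
      have h2 : g = c * (c⁻¹ * g) := by group
      rw [h2]
      exact mul_mem hc (hno _ h1)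
    have htop : CC G = ⊤ := by
      rw [eq_top_iff]
      intro g _
      exact hall g
    rw [htop, index_top] at hC
    omega
  have hN : ∀ t ∈ Om G, t ∈ N → t = 1 ∨ t = z0 := by
    intro t ht htN
    rcases hOm t ht with h1 | h1 | h1 | h1
    · exact Or.inl h1
    · exact Or.inr h1
    · rw [h1] at htN; exact absurd htN hz1N
    · rw [h1] at htN
      exact absurd ((mul_mem_cancel_left hz0N).mp htN) hz1N
  have key : ∀ {e : G}, e ∈ CC G → (∃ g ∈ CC G, K e g ≠ 1) → e ^ 2 ∈ N →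
      e ^ 2 ∉ center G ∧ ∀ c ∈ CC G, ∃ ζ ∈ center G, ∃ i : ℤ, c ^ 2 = ζ * (e ^ 2) ^ i :=
    fun he hne heN => key4 h hC hx N hg0N hg0C hN n2 he hne heN
  have trio : ∀ f1 f2 : G, Commute f1 f2 → f1 ^ 2 ∈ N ∨ f2 ^ 2 ∈ N ∨ (f1 * f2) ^ 2 ∈ N := by
    intro f1 f2 hf
    rcases hsq (QuotientGroup.mk f1) with h1 | h1
    · left
      rw [← QuotientGroup.mk_pow] at h1
      exact (QuotientGroup.eq_one_iff _).mp h1
    rcases hsq (QuotientGroup.mk f2) with h2 | h2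
    · right; left
      rw [← QuotientGroup.mk_pow] at h2
      exact (QuotientGroup.eq_one_iff _).mp h2
    · right; right
      rw [hf.mul_pow]
      apply (QuotientGroup.eq_one_iff _).mp
      rw [QuotientGroup.mk_mul, QuotientGroup.mk_pow, QuotientGroup.mk_pow, h1, h2, hzs']
  have kbaa : K a2 b1 = 1 := by rw [K_symm ha2 hb1, kba]
  -- first choice of `e`
  obtain ⟨e, he, hne, heN⟩ : ∃ e ∈ CC G, (∃ g ∈ CC G, K e g ≠ 1) ∧ e ^ 2 ∈ N := by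
    rcases trio a1 a2 (K_eq_one.mp kaa) with h1 | h1 | h1
    · exact ⟨a1, ha1, ⟨b1, hb1, by rw [k1]; exact hz11⟩, h1⟩
    · exact ⟨a2, ha2, ⟨b2, hb2, by rw [k2]; exact hz21⟩, h1⟩
    · exact ⟨a1 * a2, mul_mem ha1 ha2, ⟨b1, hb1, by
        rw [KL hC ha2 hb1, k1, kbaa, mul_one]; exact hz11⟩, h1⟩
  have hcov := (key he hne heN).2
  -- `r₁`
  have hb1a1 : K b1 a1 = z1 := by rw [K_symm hb1 ha1, k1]
  have hb2a2 : K b2 a2 = z0 * z1 := by rw [K_symm hb2 ha2, k2]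
  have c1 : Commute a1 a2 := K_eq_one.mp kaa
  have c2 : Commute a1 b2 := K_eq_one.mp kab
  have c3 : Commute b1 a2 := K_eq_one.mp kba
  have c4 : Commute b1 b2 := K_eq_one.mp kbb
  obtain ⟨r1, hr1, hr1a, hr1b, t1, ht1, ht1r, ht1a, ht1b⟩ : ∃ r1, PD r1 ∧ Commute r1 a2 ∧
      Commute r1 b2 ∧ ∃ t1 ∈ CC G, K r1 t1 = z1 ∧ Commute a2 t1 ∧ Commute b2 t1 := by
    rcases PD_pair hC hsc he hcov ha1 hb1 with h1 | h1 | h1
    · exact ⟨a1, h1, c1, c2, b1, hb1, k1, c3.symm, c4.symm⟩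
    · exact ⟨b1, h1, c3, c4, a1, ha1, hb1a1, c1.symm, c2.symm⟩
    · refine ⟨a1 * b1, h1, c1.mul_left c3, c2.mul_left c4, b1, hb1, ?_, c3.symm, c4.symm⟩
      rw [KL hC hb1 hb1, k1, K_self, mul_one]
  obtain ⟨r2, hr2, hr12, t2, ht2, ht2r, hr2t⟩ : ∃ r2, PD r2 ∧ Commute r1 r2 ∧
      ∃ t2 ∈ CC G, K r2 t2 = z0 * z1 ∧ Commute r2 t1 := by
    rcases PD_pair hC hsc he hcov ha2 hb2 with h1 | h1 | h1
    · exact ⟨a2, h1, hr1a, b2, hb2, k2, ht1a⟩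
    · exact ⟨b2, h1, hr1b, a2, ha2, hb2a2, ht1b⟩
    · refine ⟨a2 * b2, h1, hr1a.mul_right hr1b, b2, hb2, ?_, ht1a.mul_left ht1b⟩
      rw [KL hC hb2 hb2, k2, K_self, mul_one]
  obtain ⟨hr1C, s1, hs1, hs1c, hs1q⟩ := hr1
  obtain ⟨hr2C, s2, hs2, hs2c, hs2q⟩ := hr2
  have hf1 : r1 * s1 ∈ CC G := mul_mem hr1C hs1
  have hf2 : r2 * s2 ∈ CC G := mul_mem hr2C hs2
  have hcomm : Commute (r1 * s1) (r2 * s2) := by
    have d1 : ∀ g ∈ CC G, Commute s1 g := fun g hg => K_eq_one.mp (hs1c g hg)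
    have d2 : ∀ g ∈ CC G, Commute s2 g := fun g hg => K_eq_one.mp (hs2c g hg)
    exact (hr12.mul_right (d2 r1 hr1C).symm).mul_left ((d1 r2 hr2C).mul_right (d1 s2 hs2))
  have kf1 : K (r1 * s1) t1 = z1 := by rw [KL hC hs1 ht1, ht1r, hs1c t1 ht1, mul_one]
  have kf2 : K (r2 * s2) t2 = z0 * z1 := by rw [KL hC hs2 ht2, ht2r, hs2c t2 ht2, mul_one]
  have kf2' : K (r2 * s2) t1 = 1 := by
    rw [KL hC hs2 ht1, hs2c t1 ht1, mul_one]; exact K_eq_one.mpr hr2t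
  have kf12 : K (r1 * s1 * (r2 * s2)) t1 = z1 := by rw [KL hC hf2 ht1, kf1, kf2', mul_one]
  rcases trio _ _ hcomm with h1 | h1 | h1
  · exact (key hf1 ⟨t1, ht1, by rw [kf1]; exact hz11⟩ h1).1 hs1q
  · exact (key hf2 ⟨t2, ht2, by rw [kf2]; exact hz21⟩ h1).1 hs2q
  · refine (key (mul_mem hf1 hf2) ⟨t1, ht1, by rw [kf12]; exact hz11⟩ h1).1 ?_
    rw [hcomm.mul_pow]
    exact mul_mem hs1q hs2q

/-- `case4`, with the still unlanded parts `MC` and `Zc` (offer O5) as hypotheses in the exact form of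
the skeleton. -/
theorem case4 [Finite G]
    (MC : ∀ {G : Type u} [Group G] [Finite G] (_ : IsC G) {z : G} (_ : Mono z) {x c d : G}
      (_ : x ^ 2 ∉ center G) (_ : c ∈ CC G) (_ : d ∈ CC G) (_ : c * d ≠ d * c),
      (CC G).index = 2 ∧
      (∀ g ∈ center G, g = 1 ∨ g = z) ∧
      (∀ u ∉ CC G, u ^ 2 = 1 ∨ u ^ 2 = z) ∧
      (∀ s ∈ CC G, s * c = c * s → s * d = d * s → ∀ g ∈ CC G, s * g = g * s) ∧
      (∀ u ∉ CC G, ∀ s ∈ CC G, (∀ g ∈ CC G, s * g = g * s) → u * s * u⁻¹ = s⁻¹) ∧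
      (∀ u ∉ CC G,
        (u ^ 2 = 1 ∧ (u * c) ^ 2 = z ∧ (u * d) ^ 2 = z ∧ (u * (c * d)) ^ 2 = z) ∨
        (u ^ 2 = z ∧ (u * c) ^ 2 = 1 ∧ (u * d) ^ 2 = z ∧ (u * (c * d)) ^ 2 = z) ∨
        (u ^ 2 = z ∧ (u * c) ^ 2 = z ∧ (u * d) ^ 2 = 1 ∧ (u * (c * d)) ^ 2 = z) ∨
        (u ^ 2 = z ∧ (u * c) ^ 2 = z ∧ (u * d) ^ 2 = z ∧ (u * (c * d)) ^ 2 = 1)))
    (Zc : ∀ {G : Type u} [Group G] [Finite G] (_ : IsC G) {z : G} (_ : Mono z)
      (_ : ∀ x : G, x ^ 2 ∈ center G) {ζ : G} (_ : ζ ∈ center G) (_ : ζ ^ 2 ≠ 1),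
      (center G).index ≤ 4)
    (h : MinCE G) {x : G} (hx : x ^ 2 ∉ center G)
    (hC : (CC G).index = 2) (hΩ : Nat.card (Om G) = 4) : False :=
  case4_aux (fun hG _ hz _ _ _ hx hc hd hcd => (MC hG hz hx hc hd hcd).2.2.2.1)
    (fun hG _ hz hcl _ hζ hζ2 => Zc hG hz hcl hζ hζ2) h hx hC hΩ

end Case4

end Pool.Agent.Helper57.Core2
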