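import Pool.Agent.Helper5.Core2.Defs

/-! Basic tools for `case4` (MP_fafe86_al, part O7). -/

set_option autoImplicit false

namespace Pool.Agent.Helper57.Core2

open Subgroup Pool.Agent.Helper5.Core2

section Comm

variable {G : Type*} [Group G]

/-- `K a b` is the commutator. -/
def K (a b : G) : G := a * b * a⁻¹ * b⁻¹

theorem K_eq_one {a b : G} : K a b = 1 ↔ a * b = b * a := by
  unfold K
  constructor
  · intro h
    calc a * b = (a * b * a⁻¹ * b⁻¹) * (b * a) := by group
      _ = b * a := by rw [h, one_mul]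
  · intro h
    rw [h]; group

theorem K_mul (a b : G) : a * b = K a b * (b * a) := by unfold K; group

theorem K_self (a : G) : K a a = 1 := by unfold K; group

theorem K_one_right (a : G) : K a 1 = 1 := by unfold K; group

theorem K_one_left (a : G) : K 1 a = 1 := by unfold K; group

theorem K_mul_left {a b c : G} (h : K b c ∈ center G) : K (a * b) c = K a c * K b c := by
  have h1 : ∀ g, g * K b c = K b c * g := fun g => mem_center_iff.mp h g
  calc K (a * b) c = a * K b c * (c * a⁻¹ * c⁻¹) := by unfold K; group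
    _ = K b c * a * (c * a⁻¹ * c⁻¹) := by rw [h1 a]
    _ = K b c * K a c := by unfold K; group
    _ = K a c * K b c := (h1 _).symm

theorem K_mul_right {a b c : G} (h : K a c ∈ center G) : K a (b * c) = K a b * K a c := by
  have h1 : ∀ g, g * K a c = K a c * g := fun g => mem_center_iff.mp h g
  calc K a (b * c) = K a b * (b * K a c) * b⁻¹ := by unfold K; group
    _ = K a b * (K a c * b) * b⁻¹ := by rw [h1 b]
    _ = K a b * K a c := by group

theorem K_inv_swap (a b : G) : (K a b)⁻¹ = K b a := by unfold K; group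

theorem K_mem_Sq (a b : G) : K a b ∈ Sq G := by
  have e : K a b = a ^ 2 * (a⁻¹ * b) ^ 2 * (b ^ 2)⁻¹ := by
    unfold K; simp only [pow_two]; group
  rw [e]
  have hs : ∀ x : G, x ^ 2 ∈ Sq G := fun x => subset_closure ⟨x, rfl⟩
  exact mul_mem (mul_mem (hs _) (hs _)) (inv_mem (hs _))

theorem sq_mem_Sq (x : G) : x ^ 2 ∈ Sq G := subset_closure ⟨x, rfl⟩

theorem mem_CC {c : G} : c ∈ CC G ↔ ∀ x : G, x ^ 2 * c = c * x ^ 2 := by
  unfold CC
  rw [mem_centralizer_iff]
  simp

theorem Sq_comm_CC {s c : G} (hs : s ∈ Sq G) (hc : c ∈ CC G) : s * c = c * s := by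
  have h1 : Sq G ≤ centralizer {c} := by
    unfold Sq
    rw [closure_le]
    rintro _ ⟨x, rfl⟩
    simp only [SetLike.mem_coe]
    rw [mem_centralizer_singleton_iff]
    exact (mem_CC.mp hc x)
  have h2 := h1 hs
  rw [mem_centralizer_singleton_iff] at h2
  exact h2

theorem Sq_le_CC (hsq : ∀ x y : G, x ^ 2 * y ^ 2 = y ^ 2 * x ^ 2) : Sq G ≤ CC G := by
  unfold Sq
  rw [closure_le]
  rintro _ ⟨x, rfl⟩
  exact mem_CC.mpr fun y => hsq y x

theorem center_le_CC : center G ≤ CC G := by
  intro c hc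
  exact mem_CC.mpr fun x => mem_center_iff.mp hc _

/-- index two bookkeeping -/
theorem mul_mem_of_not {C : Subgroup G} (hC : C.index = 2) {u v : G} (hu : u ∉ C) (hv : v ∉ C) :
    u * v ∈ C := by
  rw [mul_mem_iff_of_index_two hC]
  exact ⟨fun h => absurd h hu, fun h => absurd h hv⟩

theorem mul_not_mem_left {C : Subgroup G} {u v : G} (hu : u ∉ C) (hv : v ∈ C) :
    u * v ∉ C := fun h => hu ((mul_mem_cancel_right hv).mp h)

theorem mul_not_mem_right {C : Subgroup G} {u v : G} (hu : u ∈ C) (hv : v ∉ C) :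
    u * v ∉ C := fun h => hv ((mul_mem_cancel_left hu).mp h)

theorem inv_not_mem {C : Subgroup G} {u : G} (hu : u ∉ C) : u⁻¹ ∉ C := fun h => hu (inv_mem_iff.mp h)

theorem index_le_of_cover {H : Type*} [Group H] (L : Subgroup H) {n : ℕ} (f : Fin n → H)
    (h : ∀ g, ∃ i, (f i)⁻¹ * g ∈ L) : L.index ≤ n := by
  have hs : Function.Surjective (fun i => (QuotientGroup.mk (f i) : H ⧸ L)) := by
    intro q
    obtain ⟨g, rfl⟩ := QuotientGroup.mk_surjective q
    obtain ⟨i, hi⟩ := h g
    exact ⟨i, (QuotientGroup.eq).mpr hi⟩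
  have := Nat.card_le_card_of_surjective _ hs
  simpa [Subgroup.index] using this

theorem index_le_two_of_cover {H : Type*} [Group H] (L : Subgroup H) (d : H)
    (h : ∀ g, g ∈ L ∨ d⁻¹ * g ∈ L) : L.index ≤ 2 := by
  refine index_le_of_cover L ![1, d] ?_
  intro g
  rcases h g with hg | hg
  · exact ⟨0, by simpa using hg⟩
  · exact ⟨1, by simpa using hg⟩

theorem index_le_four {B C : Subgroup G} (hBC : B ≤ C) (hC : C.index = 2) {d : G} (hd : d ∈ C)
    (h : ∀ g ∈ C, g ∈ B ∨ d⁻¹ * g ∈ B) : B.index ≤ 4 := by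
  have h1 : B.relIndex C ≤ 2 := by
    unfold Subgroup.relIndex
    refine index_le_two_of_cover _ (⟨d, hd⟩ : C) ?_
    rintro ⟨g, hg⟩
    rcases h g hg with h1 | h1
    · left; simpa [mem_subgroupOf] using h1
    · right; simpa [mem_subgroupOf] using h1
  have h2 := Subgroup.relIndex_mul_index hBC
  rw [hC] at h2
  omega

theorem rel_two [Finite G] {A C : Subgroup G} (hAC : A ≤ C) (hC : C.index = 2) (hA : A.index ≤ 4)
    {c d : G} (hc : c ∈ C) (hd : d ∈ C) (hcA : c ∉ A) (hdA : d ∉ A) : c * d ∈ A := by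
  have h2 := Subgroup.relIndex_mul_index hAC
  rw [hC] at h2
  have h3 : A.relIndex C ≤ 2 := by omega
  have h4 : A.relIndex C ≠ 0 := by
    intro h0
    rw [h0, zero_mul] at h2
    exact (Subgroup.index_ne_zero_of_finite (H := A)) h2.symm
  have h5 : A.relIndex C ≠ 1 := by
    intro h1
    rw [Subgroup.relIndex_eq_one] at h1
    exact hcA (h1 hc)
  have h6 : (A.subgroupOf C).index = 2 := by
    have : A.relIndex C = 2 := by omega
    exact this
  have h7 : (⟨c, hc⟩ * ⟨d, hd⟩ : C) ∈ A.subgroupOf C := by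
    rw [mul_mem_iff_of_index_two h6]
    simp only [mem_subgroupOf]
    exact ⟨fun h => absurd h hcA, fun h => absurd h hdA⟩
  simpa [mem_subgroupOf] using h7

end Comm

end Pool.Agent.Helper57.Core2
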