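import Pool.Agent.Helper57.Core2.Base

/-! Facts (a)-(d) about `CC G` when it has index two. -/

set_option autoImplicit false

namespace Pool.Agent.Helper57.Core2

open Subgroup Pool.Agent.Helper5.Core2

section Facts

variable {G : Type*} [Group G]

theorem fact_a (hC : (CC G).index = 2) {u : G} (hu : u ∉ CC G) : u ^ 2 ∈ center G := by
  rw [mem_center_iff]
  intro g
  by_cases hg : g ∈ CC G
  · exact (mem_CC.mp hg u).symm
  · have h1 : u⁻¹ * g ∈ CC G := mul_mem_of_not hC (inv_not_mem hu) hg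
    have h2 := mem_CC.mp h1 u
    have e1 : g * u ^ 2 = u * ((u⁻¹ * g) * u ^ 2) := by group
    rw [e1, ← h2]
    simp only [pow_two]
    group

theorem fact_b (hC : (CC G).index = 2) {u c : G} (hu : u ∉ CC G) (hc : c ∈ CC G) :
    u * c * u⁻¹ * c ∈ center G := by
  have h1 : u ^ 2 ∈ center G := fact_a hC hu
  have h2 : (u * c) ^ 2 ∈ center G := fact_a hC (mul_not_mem_left hu hc)
  have e1 : u * c * u⁻¹ * c = (u * c) ^ 2 * (u ^ 2)⁻¹ := by
    have h3 := mem_center_iff.mp h1 (u * c * u⁻¹)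
    have h4 := mem_center_iff.mp h1 c
    rw [eq_mul_inv_iff_mul_eq]
    calc u * c * u⁻¹ * c * u ^ 2 = u * c * u⁻¹ * (c * u ^ 2) := by group
      _ = u * c * u⁻¹ * (u ^ 2 * c) := by rw [h4]
      _ = (u * c) ^ 2 := by simp only [pow_two]; group
  rw [e1]
  exact mul_mem h2 (inv_mem h1)

/-- class two calculus inside `CC G` -/
theorem K_sq {c d : G} (hc : c ∈ CC G) (hd : d ∈ CC G) : K c d ^ 2 = 1 := by
  have h1 := Sq_comm_CC (K_mem_Sq c d) hc
  have h2 := mem_CC.mp hd c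
  calc K c d ^ 2 = K c d * (c * d * c⁻¹ * d⁻¹) := by rw [pow_two]; rfl
    _ = (K c d * c) * d * c⁻¹ * d⁻¹ := by group
    _ = (c * K c d) * d * c⁻¹ * d⁻¹ := by rw [h1]
    _ = (c ^ 2 * d) * (c ^ 2)⁻¹ * d⁻¹ := by unfold K; simp only [pow_two]; group
    _ = (d * c ^ 2) * (c ^ 2)⁻¹ * d⁻¹ := by rw [h2]
    _ = 1 := by group

theorem conj_eq {u c : G} : u * c * u⁻¹ = (u * c * u⁻¹ * c) * c⁻¹ := by group

theorem K_central_left {a b ζ : G} (hζ : ζ ∈ center G) : K (ζ * a) b = K a b := by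
  have h := mem_center_iff.mp hζ
  calc K (ζ * a) b = ζ * (a * b * a⁻¹) * ζ⁻¹ * b⁻¹ := by unfold K; group
    _ = (a * b * a⁻¹) * ζ * ζ⁻¹ * b⁻¹ := by rw [h]
    _ = K a b := by unfold K; group

theorem K_central_right {a b ζ : G} (hζ : ζ ∈ center G) : K a (ζ * b) = K a b := by
  rw [← K_inv_swap, K_central_left hζ, K_inv_swap]

theorem K_conj (u a b : G) : u * K a b * u⁻¹ = K (u * a * u⁻¹) (u * b * u⁻¹) := by
  unfold K; group

theorem K_inv_inv {c d : G} (hc : c ∈ CC G) (hd : d ∈ CC G) : K c⁻¹ d⁻¹ = K c d := by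
  have h1 := Sq_comm_CC (K_mem_Sq c d) hc
  have h2 := Sq_comm_CC (K_mem_Sq c d) hd
  have h3 : K c d * (d * c) = (d * c) * K c d := by
    calc K c d * (d * c) = (K c d * d) * c := by group
      _ = d * (K c d * c) := by rw [h2]; group
      _ = (d * c) * K c d := by rw [h1]; group
  calc K c⁻¹ d⁻¹ = (d * c)⁻¹ * (c * d) := by unfold K; group
    _ = (d * c)⁻¹ * (K c d * (d * c)) := by rw [← K_mul]
    _ = K c d := by rw [h3]; group

theorem K_center (hC : (CC G).index = 2) {c d : G} (hc : c ∈ CC G) (hd : d ∈ CC G) :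
    K c d ∈ center G := by
  rw [mem_center_iff]
  intro g
  by_cases hg : g ∈ CC G
  · exact (Sq_comm_CC (K_mem_Sq c d) hg).symm
  · have h1 : g * K c d * g⁻¹ = K c d := by
      rw [K_conj, conj_eq (c := c), conj_eq (c := d), K_central_left (fact_b hC hg hc),
        K_central_right (fact_b hC hg hd), K_inv_inv hc hd]
    calc g * K c d = (g * K c d * g⁻¹) * g := by group
      _ = K c d * g := by rw [h1]

theorem K_Om (hC : (CC G).index = 2) {c d : G} (hc : c ∈ CC G) (hd : d ∈ CC G) :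
    K c d ∈ Om G := ⟨K_center hC hc hd, K_sq hc hd⟩

theorem K_symm {c d : G} (hc : c ∈ CC G) (hd : d ∈ CC G) : K c d = K d c := by
  have h := K_sq hd hc
  rw [pow_two] at h
  calc K c d = (K d c)⁻¹ := (K_inv_swap d c).symm
    _ = K d c := inv_eq_of_mul_eq_one_left h

/-- `(cd)² = c² d² [c,d]` in `CC G` -/
theorem mul_sq (hC : (CC G).index = 2) {c d : G} (hc : c ∈ CC G) (hd : d ∈ CC G) :
    (c * d) ^ 2 = c ^ 2 * d ^ 2 * K c d := by
  have h1 := mem_center_iff.mp (K_center hC hd hc)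
  calc (c * d) ^ 2 = c * (d * c) * d := by simp only [pow_two]; group
    _ = c * (K d c * (c * d)) * d := by rw [← K_mul]
    _ = (c * K d c) * (c * d) * d := by group
    _ = (K d c * c) * (c * d) * d := by rw [h1]
    _ = K d c * (c ^ 2 * d ^ 2) := by simp only [pow_two]; group
    _ = c ^ 2 * d ^ 2 * K d c := (h1 _).symm
    _ = c ^ 2 * d ^ 2 * K c d := by rw [K_symm hd hc]

end Facts

end Pool.Agent.Helper57.Core2
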