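import Pool.Agent.Helper57.Core2.Struct

/-! Monolithic groups containing two commuting hyperbolic pairs. -/

set_option autoImplicit false

namespace Pool.Agent.Helper57.Core2

open Subgroup Pool.Agent.Helper5.Core2

section Monol

variable {H : Type*} [Group H]

/-- `g` and `h` commute up to `z`. -/
def AC (z g h : H) : Prop := g * h = z * (h * g)

theorem AC.not_commute {z g h : H} (hz1 : z ≠ 1) (h1 : AC z g h) (h2 : Commute g h) : False := by
  unfold AC at h1
  rw [h2.eq] at h1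
  exact hz1 (by simpa using h1.symm)

theorem AC.symm {z g h : H} (hz2 : z * z = 1) (h1 : AC z g h) : AC z h g := by
  unfold AC at *
  rw [h1, ← mul_assoc, hz2, one_mul]

theorem AC.mul_right {z g h k : H} (h1 : AC z g h) (h2 : Commute g k) : AC z g (h * k) := by
  unfold AC at *
  calc g * (h * k) = (g * h) * k := by group
    _ = z * (h * (g * k)) := by rw [h1]; group
    _ = z * (h * k * g) := by rw [h2.eq]; group

theorem AC.mul_right' {z g h k : H} (hzc : ∀ g, z * g = g * z) (h1 : Commute g h) (h2 : AC z g k) :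
    AC z g (h * k) := by
  unfold AC at *
  calc g * (h * k) = (g * h) * k := by group
    _ = h * (g * k) := by rw [h1.eq]; group
    _ = (h * z) * (k * g) := by rw [h2]; group
    _ = z * (h * k * g) := by rw [← hzc]; group

theorem AC.mul_left {z g h k : H} (hz2 : z * z = 1) (h1 : AC z g h) (h2 : Commute k h) :
    AC z (g * k) h := ((h1.symm hz2).mul_right h2.symm).symm hz2

theorem AC.mul_left' {z g h k : H} (hz2 : z * z = 1) (hzc : ∀ g, z * g = g * z)
    (h1 : Commute g h) (h2 : AC z k h) : AC z (g * k) h :=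
  (AC.mul_right' hzc h1.symm (h2.symm hz2)).symm hz2

theorem AC.mul_AC {z g h k : H} (hz2 : z * z = 1) (hzc : ∀ g, z * g = g * z) (h1 : AC z g h)
    (h2 : AC z g k) : Commute g (h * k) := by
  unfold AC at *
  change g * (h * k) = h * k * g
  calc g * (h * k) = (g * h) * k := by group
    _ = z * h * (g * k) := by rw [h1]; group
    _ = z * (h * z) * (k * g) := by rw [h2]; group
    _ = (z * z) * (h * k * g) := by rw [← hzc h]; group
    _ = h * k * g := by rw [hz2, one_mul]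

theorem dich {z : H} (hz2 : z * z = 1) (hzc : ∀ g, z * g = g * z)
    (hsq : ∀ g : H, g ^ 2 = 1 ∨ g ^ 2 = z) (g h : H) : Commute g h ∨ AC z g h := by
  have hK : K g h = 1 ∨ K g h = z := by
    have e : K g h = g ^ 2 * (g⁻¹ * h) ^ 2 * (h ^ 2)⁻¹ := by
      unfold K; simp only [pow_two]; group
    have hzi : z⁻¹ = z := inv_eq_of_mul_eq_one_left hz2
    rw [e]
    rcases hsq g with h1 | h1 <;> rcases hsq (g⁻¹ * h) with h2 | h2 <;> rcases hsq h with h3 | h3 <;>
      simp [h1, h2, h3, hz2, hzi]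
  rcases hK with h1 | h1
  · exact Or.inl (K_eq_one.mp h1)
  · right
    unfold AC
    rw [K_mul g h, h1]

theorem adjust_pair {z : H} (hz2 : z * z = 1) (hzc : ∀ g, z * g = g * z)
    (hsq : ∀ g : H, g ^ 2 = 1 ∨ g ^ 2 = z) {a b : H} (hab : AC z a b) (g : H) :
    ∃ w, (w = 1 ∨ w = a ∨ w = b ∨ w = a * b) ∧ Commute (g * w) a ∧ Commute (g * w) b := by
  have hba := hab.symm hz2
  rcases dich hz2 hzc hsq g a with h1 | h1 <;> rcases dich hz2 hzc hsq g b with h2 | h2
  · exact ⟨1, Or.inl rfl, by rwa [mul_one], by rwa [mul_one]⟩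
  · refine ⟨a, Or.inr (Or.inl rfl), h1.mul_left (Commute.refl _), ?_⟩
    exact (AC.mul_AC hz2 hzc (h2.symm hz2) hba).symm
  · refine ⟨b, Or.inr (Or.inr (Or.inl rfl)), ?_, h2.mul_left (Commute.refl _)⟩
    exact (AC.mul_AC hz2 hzc (h1.symm hz2) hab).symm
  · refine ⟨a * b, Or.inr (Or.inr (Or.inr rfl)), ?_, ?_⟩
    · exact (AC.mul_AC hz2 hzc (h1.symm hz2) (AC.mul_right' hzc (Commute.refl a) hab)).symm
    · exact (AC.mul_AC hz2 hzc (h2.symm hz2) (AC.mul_right hba (Commute.refl b))).symm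

/-- the contradiction machine -/
theorem mm2_use {z : H} (hz1 : z ≠ 1) (hz2 : z * z = 1) (hzc : ∀ g, z * g = g * z)
    (mm2 : ∀ x y : H, x ^ 2 = 1 → y ^ 2 = 1 → x * y = y * x → x ≠ 1 → y ≠ 1 → x ≠ y →
      x = z ∨ y = z ∨ x * y = z)
    {v b g : H} (hv : v ^ 2 = 1) (hg : g ^ 2 = 1) (hvg : Commute v g) (hvb : AC z v b)
    (hgb : Commute g b) : g = 1 ∨ g = z := by
  have hzb : Commute z b := hzc b
  by_cases hg1 : g = 1
  · exact Or.inl hg1
  · right
    have hv1 : v ≠ 1 := by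
      rintro rfl
      exact hvb.not_commute hz1 (Commute.one_left b)
    have hvg' : v ≠ g := by
      rintro rfl
      exact hvb.not_commute hz1 hgb
    rcases mm2 v g hv hg hvg hv1 hg1 hvg' with h1 | h1 | h1
    · exfalso
      rw [h1] at hvb
      exact hvb.not_commute hz1 hzb
    · exact h1
    · exfalso
      have h2 : AC z (v * g) b := AC.mul_left hz2 hvb hgb
      rw [h1] at h2
      exact h2.not_commute hz1 hzb

theorem sq_mul {g h : H} (hc : Commute g h) : (g * h) ^ 2 = g ^ 2 * h ^ 2 := hc.mul_pow 2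

/-- an element commuting with two commuting hyperbolic pairs is in `{1,z}` -/
theorem centralizing {z : H} (hz1 : z ≠ 1) (hz2 : z * z = 1) (hzc : ∀ g, z * g = g * z)
    (mm2 : ∀ x y : H, x ^ 2 = 1 → y ^ 2 = 1 → x * y = y * x → x ≠ 1 → y ≠ 1 → x ≠ y →
      x = z ∨ y = z ∨ x * y = z)
    (hsq : ∀ g : H, g ^ 2 = 1 ∨ g ^ 2 = z) {a1 b1 a2 b2 : H} (h1 : AC z a1 b1) (h2 : AC z a2 b2)
    (haa : Commute a1 a2) (hba : Commute b1 a2) {g : H}
    (hg1 : Commute g a1) (hg2 : Commute g b1) (hg3 : Commute g a2) (hg4 : Commute g b2) :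
    g = 1 ∨ g = z := by
  rcases hsq g with hg | hg
  · rcases hsq a1 with s1 | s1
    · exact mm2_use hz1 hz2 hzc mm2 s1 hg hg1.symm h1 hg2
    · rcases hsq a2 with s2 | s2
      · exact mm2_use hz1 hz2 hzc mm2 s2 hg hg3.symm h2 hg4
      · have hv : (a1 * a2) ^ 2 = 1 := by rw [sq_mul haa, s1, s2, hz2]
        exact mm2_use hz1 hz2 hzc mm2 hv hg (hg1.mul_right hg3).symm
          (AC.mul_left hz2 h1 hba.symm) hg2
  · exfalso
    obtain ⟨v, hv, hvb, hvg, hva⟩ : ∃ v, v ^ 2 = 1 ∧ AC z v b1 ∧ Commute v g ∧ Commute v a2 := by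
      rcases hsq a1 with s1 | s1
      · exact ⟨a1, s1, h1, hg1.symm, haa⟩
      · exact ⟨a1 * g, by rw [sq_mul hg1.symm, s1, hg, hz2], AC.mul_left hz2 h1 hg2,
          hg1.symm.mul_left (Commute.refl g), haa.mul_left hg3⟩
    obtain ⟨v', hv', hvb', hvv', hb1⟩ : ∃ v', v' ^ 2 = 1 ∧ AC z v' b2 ∧ Commute v v' ∧
        Commute v' b1 := by
      rcases hsq a2 with s1 | s1
      · exact ⟨a2, s1, h2, hva, hba.symm⟩
      · exact ⟨a2 * g, by rw [sq_mul hg3.symm, s1, hg, hz2], AC.mul_left hz2 h2 hg4,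
          hva.mul_right hvg, hba.symm.mul_left hg2⟩
    rcases mm2_use hz1 hz2 hzc mm2 hv hv' hvv' hvb hb1 with h3 | h3
    · rw [h3] at hvb'
      exact hvb'.not_commute hz1 (Commute.one_left b2)
    · rw [h3] at hvb'
      exact hvb'.not_commute hz1 (hzc b2)

/-- everything is generated by the two pairs and `z` -/
theorem generated {z : H} (hz1 : z ≠ 1) (hz2 : z * z = 1) (hzc : ∀ g, z * g = g * z)
    (mm2 : ∀ x y : H, x ^ 2 = 1 → y ^ 2 = 1 → x * y = y * x → x ≠ 1 → y ≠ 1 → x ≠ y →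
      x = z ∨ y = z ∨ x * y = z)
    (hsq : ∀ g : H, g ^ 2 = 1 ∨ g ^ 2 = z) {a1 b1 a2 b2 : H} (h1 : AC z a1 b1) (h2 : AC z a2 b2)
    (haa : Commute a1 a2) (hab : Commute a1 b2) (hba : Commute b1 a2) (hbb : Commute b1 b2)
    (L : Subgroup H) (ha1 : a1 ∈ L) (hb1 : b1 ∈ L) (ha2 : a2 ∈ L) (hb2 : b2 ∈ L) (hz : z ∈ L)
    (g : H) : g ∈ L := by
  obtain ⟨w1, hw1, c1, c2⟩ := adjust_pair hz2 hzc hsq h1 g
  obtain ⟨w2, hw2, c3, c4⟩ := adjust_pair hz2 hzc hsq h2 (g * w1)
  have hw1L : w1 ∈ L := by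
    rcases hw1 with rfl | rfl | rfl | rfl
    · exact one_mem _
    · exact ha1
    · exact hb1
    · exact mul_mem ha1 hb1
  have hw2L : w2 ∈ L ∧ Commute w2 a1 ∧ Commute w2 b1 := by
    rcases hw2 with rfl | rfl | rfl | rfl
    · exact ⟨one_mem _, Commute.one_left _, Commute.one_left _⟩
    · exact ⟨ha2, haa.symm, hba.symm⟩
    · exact ⟨hb2, hab.symm, hbb.symm⟩
    · exact ⟨mul_mem ha2 hb2, haa.symm.mul_left hab.symm, hba.symm.mul_left hbb.symm⟩
  have hfin := centralizing hz1 hz2 hzc mm2 hsq h1 h2 haa hba (g := g * w1 * w2)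
    (c1.mul_left hw2L.2.1) (c2.mul_left hw2L.2.2) c3 c4
  have hmem : g * w1 * w2 ∈ L := by
    rcases hfin with h | h
    · rw [h]; exact one_mem _
    · rw [h]; exact hz
  rwa [mul_mem_cancel_right hw2L.1, mul_mem_cancel_right hw1L] at hmem

end Monol

end Pool.Agent.Helper57.Core2
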