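import Pool.Agent.Helper57.Core2.Facts

/-! The involution of a cyclic normal subgroup, the structure of `Om G` of order four, the groups
`A_z`. -/

set_option autoImplicit false

namespace Pool.Agent.Helper57.Core2

open Subgroup Pool.Agent.Helper5.Core2

section Omega

variable {G : Type*} [Group G]

theorem conj_pow_mem {w g : G} (hN : g * w * g⁻¹ ∈ zpowers w) {t : G} (ht : t ∈ zpowers w) :
    g * t * g⁻¹ ∈ zpowers w := by
  obtain ⟨m, rfl⟩ := mem_zpowers_iff.mp ht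
  have : g * w ^ m * g⁻¹ = (g * w * g⁻¹) ^ m := (conj_zpow).symm
  rw [this]
  exact zpow_mem hN m

theorem exists_inv (h2 : IsPGroup 2 G) {w : G} (hw : w ≠ 1)
    (hN : ∀ g, g * w * g⁻¹ ∈ zpowers w) :
    ∃ z0 ∈ zpowers w, z0 ≠ 1 ∧ z0 ^ 2 = 1 ∧ z0 ∈ center G ∧
      ∀ t ∈ zpowers w, t ^ 2 = 1 → t = 1 ∨ t = z0 := by
  classical
  obtain ⟨n, hn⟩ := h2 w
  have hex : ∃ n, w ^ 2 ^ n = 1 := ⟨n, hn⟩
  obtain ⟨k, hk⟩ : ∃ k, Nat.find hex = k + 1 := by
    refine Nat.exists_eq_succ_of_ne_zero ?_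
    intro h0
    have := Nat.find_spec hex
    rw [h0] at this
    exact hw (by simpa using this)
  have hk1 : w ^ 2 ^ (k + 1) = 1 := by rw [← hk]; exact Nat.find_spec hex
  have hk0 : w ^ 2 ^ k ≠ 1 := Nat.find_min hex (by omega)
  have : Fact (Nat.Prime 2) := ⟨Nat.prime_two⟩
  have hord : orderOf w = 2 ^ (k + 1) := orderOf_eq_prime_pow hk0 hk1
  have huniq : ∀ t ∈ zpowers w, t ^ 2 = 1 → t = 1 ∨ t = w ^ 2 ^ k := by
    intro t ht ht2
    obtain ⟨m, rfl⟩ := mem_zpowers_iff.mp ht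
    have h1 : w ^ (m * 2) = 1 := by
      rw [zpow_mul]; exact_mod_cast ht2
    rw [← orderOf_dvd_iff_zpow_eq_one, hord] at h1
    have h3 : ((2 : ℤ) ^ k) ∣ m := by
      have h4 : ((2 : ℤ) ^ k * 2) ∣ m * 2 := by
        have : (((2 : ℕ) ^ (k + 1) : ℕ) : ℤ) = (2 : ℤ) ^ k * 2 := by push_cast; ring
        rwa [this] at h1
      exact Int.dvd_of_mul_dvd_mul_right (by norm_num) h4
    obtain ⟨j, rfl⟩ := h3
    have h5 : w ^ ((2 : ℤ) ^ k * j) = (w ^ 2 ^ k) ^ j := by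
      rw [zpow_mul]
      congr 1
      exact_mod_cast rfl
    have h6 : (w ^ 2 ^ k) ^ 2 = 1 := by rw [← pow_mul, ← pow_succ]; exact hk1
    rcases Int.even_or_odd j with ⟨i, hi⟩ | ⟨i, hi⟩
    · left
      rw [h5, hi, ← two_mul, zpow_mul]
      have : (w ^ 2 ^ k) ^ (2 : ℤ) = 1 := by exact_mod_cast h6
      rw [this, one_zpow]
    · right
      rw [h5, hi, zpow_add, zpow_mul]
      have : (w ^ 2 ^ k) ^ (2 : ℤ) = 1 := by exact_mod_cast h6
      rw [this, one_zpow, one_mul, zpow_one]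
  have h6 : (w ^ 2 ^ k) ^ 2 = 1 := by rw [← pow_mul, ← pow_succ]; exact hk1
  have hmem : w ^ 2 ^ k ∈ zpowers w := pow_mem (mem_zpowers w) _
  refine ⟨w ^ 2 ^ k, hmem, hk0, h6, ?_, huniq⟩
  rw [mem_center_iff]
  intro g
  have h7 : g * w ^ 2 ^ k * g⁻¹ ∈ zpowers w := conj_pow_mem (hN g) hmem
  have h8 : (g * w ^ 2 ^ k * g⁻¹) ^ 2 = 1 := by
    rw [conj_pow, h6]; group
  rcases huniq _ h7 h8 with h9 | h9
  · exfalso
    apply hk0
    have : w ^ 2 ^ k = g⁻¹ * (g * w ^ 2 ^ k * g⁻¹) * g := by group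
    rw [this, h9]; group
  · calc g * w ^ 2 ^ k = (g * w ^ 2 ^ k * g⁻¹) * g := by group
      _ = w ^ 2 ^ k * g := by rw [h9]

theorem Om_four [Finite G] (hΩ : Nat.card (Om G) = 4) {z0 : G} (h0 : z0 ∈ Om G) (h01 : z0 ≠ 1) :
    ∃ z1 ∈ Om G, z1 ≠ 1 ∧ z1 ≠ z0 ∧ ∀ t ∈ Om G, t = 1 ∨ t = z0 ∨ t = z1 ∨ t = z0 * z1 := by
  classical
  have hcard : (Om G : Set G).ncard = 4 := by
    rw [← hΩ]; rfl
  have h1 : ({1, z0} : Set G).ncard < (Om G : Set G).ncard := by
    rw [hcard]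
    have := Set.ncard_insert_le (1 : G) {z0}
    simp only [Set.ncard_singleton] at this
    omega
  obtain ⟨z1, hz1, hz1'⟩ := Set.exists_mem_notMem_of_ncard_lt_ncard h1 (Set.toFinite _)
  simp only [Set.mem_insert_iff, Set.mem_singleton_iff, not_or] at hz1'
  have hz1O : z1 ∈ Om G := hz1
  refine ⟨z1, hz1O, hz1'.1, hz1'.2, ?_⟩
  have hsub : (({1, z0, z1, z0 * z1} : Finset G) : Set G) ⊆ (Om G : Set G) := by
    intro t ht
    simp only [Finset.coe_insert, Finset.coe_singleton, Set.mem_insert_iff, Set.mem_singleton_iff] at ht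
    rcases ht with rfl | rfl | rfl | rfl
    · exact one_mem _
    · exact h0
    · exact hz1
    · exact mul_mem h0 hz1O
  have hz0sq : z0 * z0 = 1 := by have := h0.2; rwa [pow_two] at this
  have hc4 : ({1, z0, z1, z0 * z1} : Finset G).card = 4 := by
    rw [Finset.card_insert_of_notMem, Finset.card_insert_of_notMem, Finset.card_insert_of_notMem,
      Finset.card_singleton]
    · simp only [Finset.mem_singleton]
      intro h
      exact h01 (by simpa using h.symm)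
    · simp only [Finset.mem_insert, Finset.mem_singleton, not_or]
      refine ⟨fun h => hz1'.2 h.symm, fun h => ?_⟩
      exact hz1'.1 (by simpa using h.symm)
    · simp only [Finset.mem_insert, Finset.mem_singleton, not_or]
      refine ⟨fun h => h01 h.symm, fun h => hz1'.1 h.symm, fun h => ?_⟩
      apply hz1'.2
      calc z1 = z0 * (z0 * z1) := by rw [← mul_assoc, hz0sq, one_mul]
        _ = z0 := by rw [← h, mul_one]
  have heq := Set.eq_of_subset_of_ncard_le hsub (by rw [hcard, Set.ncard_coe_finset, hc4])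
    (Set.toFinite _)
  intro t ht
  have : t ∈ (({1, z0, z1, z0 * z1} : Finset G) : Set G) := by rw [heq]; exact ht
  simpa using this

theorem zpowers_two {z : G} (hz : z ^ 2 = 1) {t : G} (ht : t ∈ zpowers z) : t = 1 ∨ t = z := by
  obtain ⟨m, rfl⟩ := mem_zpowers_iff.mp ht
  have h2 : z ^ (2 : ℤ) = 1 := by exact_mod_cast hz
  rcases Int.even_or_odd m with ⟨i, hi⟩ | ⟨i, hi⟩
  · left; rw [hi, ← two_mul, zpow_mul, h2, one_zpow]
  · right; rw [hi, zpow_add, zpow_mul, h2, one_zpow, one_mul, zpow_one]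

theorem zpowers_normal {z : G} (hz : z ∈ center G) : (zpowers z).Normal := by
  constructor
  intro n hn g
  have h1 : n ∈ center G := (zpowers_le.mpr hz) hn
  have h2 := mem_center_iff.mp h1 g
  rw [h2]
  simpa using hn

/-- the groups `A_z` -/
theorem exists_A [Finite G] (h : MinCE G) (hC : (CC G).index = 2) {x z z0 : G}
    (hx : x ^ 2 ∉ center G) (hu : ∀ t ∈ zpowers (x ^ 2), t ^ 2 = 1 → t = 1 ∨ t = z0)
    (hz : z ∈ Om G) (hz1 : z ≠ 1) (hzz0 : z ≠ z0) :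
    ∃ A : Subgroup G, Sq G ≤ A ∧ A ≤ CC G ∧ (∀ a ∈ A, ∀ b ∈ A, K a b = 1 ∨ K a b = z) ∧
      A.index ≤ 4 := by
  obtain ⟨A, hA1, -, hA3, hA4⟩ := h.quot (zpowers z) (zpowers_normal hz.1)
    (by rw [Ne, zpowers_eq_bot]; exact hz1)
  have hK : ∀ a ∈ A, ∀ b ∈ A, K a b = 1 ∨ K a b = z := fun a ha b hb =>
    zpowers_two hz.2 (hA3 a ha b hb)
  refine ⟨A, hA1, ?_, hK, hA4⟩
  intro a ha
  have hax : a * x ^ 2 = x ^ 2 * a := by
    have h1 : K a (x ^ 2) ∈ zpowers (x ^ 2) := by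
      unfold K
      exact mul_mem (h.c.F1 x a) (inv_mem (mem_zpowers _))
    rcases hK a ha (x ^ 2) (hA1 (sq_mem_Sq x)) with h2 | h2
    · exact K_eq_one.mp h2
    · exfalso
      rw [h2] at h1
      rcases hu z h1 hz.2 with h3 | h3
      · exact hz1 h3
      · exact hzz0 h3
  by_contra haC
  apply hx
  rw [mem_center_iff]
  intro g
  by_cases hg : g ∈ CC G
  · exact (mem_CC.mp hg x).symm
  · have h3 : a⁻¹ * g ∈ CC G := mul_mem_of_not hC (inv_not_mem haC) hg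
    have h4 := mem_CC.mp h3 x
    calc g * x ^ 2 = a * ((a⁻¹ * g) * x ^ 2) := by group
      _ = (a * x ^ 2) * (a⁻¹ * g) := by rw [← h4]; group
      _ = x ^ 2 * g := by rw [hax]; group

end Omega

end Pool.Agent.Helper57.Core2
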