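import Pool.Agent.Helper57.Core2.Monol
import Pool.Agent.Helper4.Core2.Basics
import Pool.Agent.Helper95.Core2.Mono
import Pool.Agent.Helper35.Core2.SqComm

/-! In a monolithic group with two commuting hyperbolic pairs in `CC`, all squares are in `{1,z}`. -/

set_option autoImplicit false

namespace Pool.Agent.Helper57.Core2

open Subgroup Pool.Agent.Helper5.Core2

section Squares

variable {H : Type*} [Group H]

theorem sep {z x y t : H} (hz1 : z ≠ 1) (hzc : ∀ g, z * g = g * z)
    (hm : x⁻¹ * y ∈ center H) (h1 : Commute x t) (h2 : AC z y t) : False := by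
  have h3 : Commute (x⁻¹ * y) t := (mem_center_iff.mp hm t).symm
  have h4 : Commute y t := by
    have : y = x * (x⁻¹ * y) := by group
    rw [this]
    exact h1.mul_left h3
  exact h2.not_commute hz1 h4

theorem sep' {z x y t : H} (hz1 : z ≠ 1) (hzc : ∀ g, z * g = g * z)
    (hm : x⁻¹ * y ∈ center H) (h1 : AC z x t) (h2 : Commute y t) : False := by
  refine sep hz1 hzc (x := y) (y := x) ?_ h2 h1
  have : y⁻¹ * x = (x⁻¹ * y)⁻¹ := by group
  rw [this]
  exact inv_mem hm

theorem five_le_index [Finite H] {z : H} (hz1 : z ≠ 1) (hz2 : z * z = 1)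
    (hzc : ∀ g, z * g = g * z) {a1 b1 a2 b2 : H} (h1 : AC z a1 b1) (h2 : AC z a2 b2)
    (haa : Commute a1 a2) (hba : Commute b1 a2) (hab : Commute a1 b2) (hbb : Commute b1 b2) :
    5 ≤ (center H).index := by
  have h1' := h1.symm hz2
  have h2' := h2.symm hz2
  have hinj : Function.Injective
      (fun i : Fin 5 => (QuotientGroup.mk ((![1, a1, b1, a2, b2] : Fin 5 → H) i) : H ⧸ center H)) := by
    intro i j hij
    simp only [QuotientGroup.eq] at hij
    by_contra hne
    fin_cases i <;> fin_cases j <;> simp at hne hij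
    · exact sep hz1 hzc (x := 1) (by simpa using hij) (Commute.one_left b1) h1
    · exact sep hz1 hzc (x := 1) (by simpa using hij) (Commute.one_left a1) h1'
    · exact sep hz1 hzc (x := 1) (by simpa using hij) (Commute.one_left b2) h2
    · exact sep hz1 hzc (x := 1) (by simpa using hij) (Commute.one_left a2) h2'
    · exact sep hz1 hzc (x := 1) (by simpa using hij) (Commute.one_left b1) h1
    · exact sep' hz1 hzc hij h1 (Commute.refl b1)
    · exact sep' hz1 hzc hij h1 hba.symm
    · exact sep' hz1 hzc hij h1 hbb.symm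
    · exact sep hz1 hzc (x := 1) (by simpa using hij) (Commute.one_left a1) h1'
    · exact sep hz1 hzc hij (Commute.refl b1) h1
    · exact sep' hz1 hzc hij h1' haa.symm
    · exact sep' hz1 hzc hij h1' hab.symm
    · exact sep hz1 hzc (x := 1) (by simpa using hij) (Commute.one_left b2) h2
    · exact sep hz1 hzc hij hba.symm h1
    · exact sep hz1 hzc hij haa.symm h1'
    · exact sep' hz1 hzc hij h2 (Commute.refl b2)
    · exact sep hz1 hzc (x := 1) (by simpa using hij) (Commute.one_left a2) h2'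
    · exact sep hz1 hzc hij hbb.symm h1
    · exact sep hz1 hzc hij hab.symm h1'
    · exact sep hz1 hzc hij (Commute.refl b2) h2
  have := Nat.card_le_card_of_injective _ hinj
  simpa [Subgroup.index] using this

theorem squares_two [Finite H] {z : H} (hz : Mono z)
    (hzc : ∀ g, z * g = g * z) (hz2 : z * z = 1)
    (hMC : ∀ {x c d : H}, x ^ 2 ∉ center H → c ∈ CC H → d ∈ CC H → c * d ≠ d * c →
      ∀ s ∈ CC H, s * c = c * s → s * d = d * s → ∀ g ∈ CC H, s * g = g * s)
    (hZc : (∀ x : H, x ^ 2 ∈ center H) → ∀ ζ ∈ center H, ζ ^ 2 ≠ 1 → (center H).index ≤ 4)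
    {a1 b1 a2 b2 : H} (ha1 : a1 ∈ CC H) (hb1 : b1 ∈ CC H) (ha2 : a2 ∈ CC H) (hb2 : b2 ∈ CC H)
    (h1 : AC z a1 b1) (h2 : AC z a2 b2)
    (haa : Commute a1 a2) (hba : Commute b1 a2) (hab : Commute a1 b2) (hbb : Commute b1 b2)
    (g : H) : g ^ 2 = 1 ∨ g ^ 2 = z := by
  have hz1 : z ≠ 1 := hz.1
  have hcl : ∀ x : H, x ^ 2 ∈ center H := by
    intro x
    by_contra hx
    have h3 := hMC hx ha1 hb1 (fun h => h1.not_commute hz1 h) a2 ha2 haa.symm.eq hba.symm.eq b2 hb2
    exact h2.not_commute hz1 h3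
  have hζ : ∀ ζ ∈ center H, ζ ^ 2 = 1 := by
    intro ζ hζ
    by_contra hne
    have h3 := hZc hcl ζ hζ hne
    have h4 := five_le_index hz1 hz2 hzc h1 h2 haa hba hab hbb
    omega
  by_cases hg : g ^ 2 = 1
  · exact Or.inl hg
  · exact Or.inr (Helper95.Core2.mono_central_invol hz (hcl g) hg (hζ _ (hcl g)))

end Squares

end Pool.Agent.Helper57.Core2
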