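import Pool.Agent.Helper57.Core2.Omega

/-! The structure of `CC G` when `Om G` has order four. -/

set_option autoImplicit false

namespace Pool.Agent.Helper57.Core2

open Subgroup Pool.Agent.Helper5.Core2

section Struct

variable {G : Type*} [Group G]

theorem comm_of_cover {A D : Subgroup G} {c : G} (hcov : ∀ a ∈ A, a ∈ D ∨ c⁻¹ * a ∈ D)
    (hD : ∀ a ∈ D, ∀ b ∈ D, a * b = b * a) (hc : ∀ d ∈ D, c * d = d * c) :
    ∀ a ∈ A, ∀ b ∈ A, a * b = b * a := by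
  have h1 : ∀ a ∈ A, Commute c a := by
    intro a ha
    rcases hcov a ha with h | h
    · exact hc a h
    · have : a = c * (c⁻¹ * a) := by group
      rw [this]
      exact (Commute.refl c).mul_right (hc _ h)
  have h2 : ∀ a ∈ A, ∀ d ∈ D, Commute a d := by
    intro a ha d hd
    rcases hcov a ha with h | h
    · exact hD a h d hd
    · have : a = c * (c⁻¹ * a) := by group
      rw [this]
      exact Commute.mul_left (hc d hd) (hD _ h d hd)
  intro a ha b hb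
  rcases hcov b hb with h | h
  · exact h2 a ha b h
  · have : b = c * (c⁻¹ * b) := by group
    rw [this]
    exact Commute.mul_right (h1 a ha).symm (h2 a ha _ h)

theorem KL (hC : (CC G).index = 2) {c d e : G} (hd : d ∈ CC G) (he : e ∈ CC G) :
    K (c * d) e = K c e * K d e := K_mul_left (K_center hC hd he)

theorem KR (hC : (CC G).index = 2) {c d e : G} (hc : c ∈ CC G) (he : e ∈ CC G) :
    K c (d * e) = K c d * K c e := K_mul_right (K_center hC hc he)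

theorem KI (hC : (CC G).index = 2) {c d : G} (hc : c ∈ CC G) (hd : d ∈ CC G) :
    K c d⁻¹ = K c d := by
  have h1 : K c (d * d⁻¹) = K c d * K c d⁻¹ := KR hC hc (inv_mem hd)
  rw [mul_inv_cancel, K_one_right] at h1
  have h2 := K_sq hc hd
  rw [pow_two] at h2
  have h3 : K c d⁻¹ = (K c d)⁻¹ := eq_inv_of_mul_eq_one_right h1.symm
  rw [h3]
  exact inv_eq_of_mul_eq_one_left h2

/-- adjusting `c₁, c₂` so that they commute -/
theorem adjust (hC : (CC G).index = 2) {D A1 A2 : Subgroup G} (hD1 : D ≤ A1) (hD2 : D ≤ A2)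
    (h1C : A1 ≤ CC G) (h2C : A2 ≤ CC G)
    (hDc : ∀ a ∈ D, ∀ b ∈ D, K a b = 1) {z0 z1 c1 c2 s t : G}
    (hz1 : z1 * z1 = 1) (hz0 : z0 * z0 = 1)
    (hcomm01 : z0 * z1 = z1 * z0)
    (hc1 : c1 ∈ A1) (hc1' : c1 ∉ A2) (hc2 : c2 ∈ A2) (hc2' : c2 ∉ A1) (hs : s ∈ D) (ht : t ∈ D)
    (h1 : K c1 t = z1) (h2 : K c2 s = z0 * z1)
    (hω : K c1 c2 = 1 ∨ K c1 c2 = z0 ∨ K c1 c2 = z1 ∨ K c1 c2 = z0 * z1) :
    ∃ e1 e2 : G, e1 ∈ A1 ∧ e1 ∉ A2 ∧ e2 ∈ A2 ∧ e2 ∉ A1 ∧ K e1 e2 = 1 ∧ K e1 t = z1 ∧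
      K e2 s = z0 * z1 := by
  have hc1C := h1C hc1
  have hc2C := h2C hc2
  have hsC := h1C (hD1 hs)
  have htC := h1C (hD1 ht)
  have hst : K s t = 1 := hDc s hs t ht
  have hts : K t s = 1 := hDc t ht s hs
  have hsc2 : K s c2 = z0 * z1 := by rw [K_symm hsC hc2C, h2]
  have e1A : c1 * s ∈ A1 := mul_mem hc1 (hD1 hs)
  have e1A' : c1 * s ∉ A2 := mul_not_mem_left hc1' (hD2 hs)
  have e2A : c2 * t ∈ A2 := mul_mem hc2 (hD2 ht)
  have e2A' : c2 * t ∉ A1 := mul_not_mem_left hc2' (hD1 ht)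
  have k1 : K (c1 * s) t = z1 := by rw [KL hC hsC htC, h1, hst, mul_one]
  have k2 : K (c2 * t) s = z0 * z1 := by rw [KL hC htC hsC, h2, hts, mul_one]
  rcases hω with hω | hω | hω | hω
  · exact ⟨c1, c2, hc1, hc1', hc2, hc2', hω, h1, h2⟩
  · refine ⟨c1 * s, c2 * t, e1A, e1A', e2A, e2A', ?_, k1, k2⟩
    rw [KL hC hsC (h2C e2A), KR hC hc1C htC, KR hC hsC htC, hω, h1, hsc2, hst, mul_one]
    calc z0 * z1 * (z0 * z1) = z0 * (z1 * z0) * z1 := by group
      _ = z0 * (z0 * z1) * z1 := by rw [hcomm01]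
      _ = (z0 * z0) * (z1 * z1) := by group
      _ = 1 := by rw [hz0, hz1, one_mul]
  · refine ⟨c1, c2 * t, hc1, hc1', e2A, e2A', ?_, h1, k2⟩
    rw [KR hC hc1C htC, hω, h1, hz1]
  · refine ⟨c1 * s, c2, e1A, e1A', hc2, hc2', ?_, k1, h2⟩
    rw [KL hC hsC hc2C, hω, hsc2]
    calc z0 * z1 * (z0 * z1) = z0 * (z1 * z0) * z1 := by group
      _ = z0 * (z0 * z1) * z1 := by rw [hcomm01]
      _ = (z0 * z0) * (z1 * z1) := by group
      _ = 1 := by rw [hz0, hz1, one_mul]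

theorem structure4 [Finite G] (h : MinCE G) (hC : (CC G).index = 2) {x : G}
    (hx : x ^ 2 ∉ center G) (hΩ : Nat.card (Om G) = 4)
    (hsc : ∀ x y : G, x ^ 2 * y ^ 2 = y ^ 2 * x ^ 2) :
    ∃ z0 z1 a1 b1 a2 b2 : G, z0 ∈ Om G ∧ z1 ∈ Om G ∧ z0 ≠ 1 ∧ z1 ≠ 1 ∧ z1 ≠ z0 ∧
      (∀ t ∈ Om G, t = 1 ∨ t = z0 ∨ t = z1 ∨ t = z0 * z1) ∧
      a1 ∈ CC G ∧ b1 ∈ CC G ∧ a2 ∈ CC G ∧ b2 ∈ CC G ∧
      K a1 b1 = z1 ∧ K a2 b2 = z0 * z1 ∧ K a1 a2 = 1 ∧ K a1 b2 = 1 ∧ K b1 a2 = 1 ∧ K b1 b2 = 1 ∧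
      (∀ e ∈ CC G, (∀ g ∈ CC G, K e g = 1 ∨ K e g = z0) → ∀ g ∈ CC G, K e g = 1) := by
  have hx1 : x ^ 2 ≠ 1 := fun h1 => hx (by rw [h1]; exact one_mem _)
  obtain ⟨z0, -, hz01, hz0sq, hz0c, huniq⟩ := exists_inv h.c.two hx1 (fun g => h.c.F1 x g)
  have hz0O : z0 ∈ Om G := ⟨hz0c, hz0sq⟩
  obtain ⟨z1, hz1O, hz11, hz10, hOm⟩ := Om_four hΩ hz0O hz01
  have hz0s : z0 * z0 = 1 := by rw [← pow_two]; exact hz0sq
  have hz1s : z1 * z1 = 1 := by rw [← pow_two]; exact hz1O.2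
  have hcomm01 : z0 * z1 = z1 * z0 := (mem_center_iff.mp hz1O.1 z0)
  have hz2O : z0 * z1 ∈ Om G := mul_mem hz0O hz1O
  have hz21 : z0 * z1 ≠ 1 := by
    intro h1
    apply hz10
    calc z1 = z0 * (z0 * z1) := by rw [← mul_assoc, hz0s, one_mul]
      _ = z0 := by rw [h1, mul_one]
  have hz20 : z0 * z1 ≠ z0 := fun h1 => hz11 (by simpa using h1)
  have hz2z1 : z0 * z1 ≠ z1 := fun h1 => hz01 (by simpa using h1)
  obtain ⟨A1, hS1, hA1C, hK1, hi1⟩ := exists_A h hC hx huniq hz1O hz11 hz10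
  obtain ⟨A2, hS2, hA2C, hK2, hi2⟩ := exists_A h hC hx huniq hz2O hz21 hz20
  have hboth : ∀ a ∈ A1, ∀ b ∈ A1, a ∈ A2 → b ∈ A2 → K a b = 1 := by
    intro a ha b hb ha' hb'
    rcases hK1 a ha b hb with h1 | h1
    · exact h1
    · rcases hK2 a ha' b hb' with h2 | h2
      · exact h2
      · exact absurd (h2.symm.trans h1) hz2z1
  have hn12 : ¬ A1 ≤ A2 := fun hle =>
    h.notT ⟨A1, hS1, fun a ha b hb => K_eq_one.mp (hboth a ha b hb (hle ha) (hle hb)), hi1⟩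
  have hn21 : ¬ A2 ≤ A1 := fun hle =>
    h.notT ⟨A2, hS2, fun a ha b hb => K_eq_one.mp (hboth a (hle ha) b (hle hb) ha hb), hi2⟩
  obtain ⟨c1, hc1, hc1'⟩ := SetLike.not_le_iff_exists.mp hn12
  obtain ⟨c2, hc2, hc2'⟩ := SetLike.not_le_iff_exists.mp hn21
  have hD1 : A1 ⊓ A2 ≤ A1 := inf_le_left
  have hD2 : A1 ⊓ A2 ≤ A2 := inf_le_right
  have hDc : ∀ a ∈ A1 ⊓ A2, ∀ b ∈ A1 ⊓ A2, K a b = 1 := fun a ha b hb =>
    hboth a ha.1 b hb.1 ha.2 hb.2
  have rel1 : ∀ {c d : G}, c ∈ CC G → d ∈ CC G → c ∉ A1 → d ∉ A1 → c * d ∈ A1 :=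
    fun hc hd hcA hdA => rel_two hA1C hC hi1 hc hd hcA hdA
  have rel2 : ∀ {c d : G}, c ∈ CC G → d ∈ CC G → c ∉ A2 → d ∉ A2 → c * d ∈ A2 :=
    fun hc hd hcA hdA => rel_two hA2C hC hi2 hc hd hcA hdA
  obtain ⟨t, htD, ht⟩ : ∃ t ∈ A1 ⊓ A2, K c1 t = z1 := by
    by_contra hno
    push Not at hno
    apply h.notT
    refine ⟨A1, hS1, comm_of_cover (D := A1 ⊓ A2) (c := c1) ?_
      (fun a ha b hb => K_eq_one.mp (hDc a ha b hb)) ?_, hi1⟩
    · intro a ha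
      by_cases ha2 : a ∈ A2
      · exact Or.inl ⟨ha, ha2⟩
      · exact Or.inr (mem_inf.mpr ⟨mul_mem (inv_mem hc1) ha,
          rel2 (inv_mem (hA1C hc1)) (hA1C ha) (inv_not_mem hc1') ha2⟩)
    · intro d hd
      rcases hK1 c1 hc1 d hd.1 with h1 | h1
      · exact K_eq_one.mp h1
      · exact absurd h1 (hno d hd)
  obtain ⟨s, hsD, hs⟩ : ∃ s ∈ A1 ⊓ A2, K c2 s = z0 * z1 := by
    by_contra hno
    push Not at hno
    apply h.notT
    refine ⟨A2, hS2, comm_of_cover (D := A1 ⊓ A2) (c := c2) ?_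
      (fun a ha b hb => K_eq_one.mp (hDc a ha b hb)) ?_, hi2⟩
    · intro a ha
      by_cases ha2 : a ∈ A1
      · exact Or.inl ⟨ha2, ha⟩
      · exact Or.inr (mem_inf.mpr ⟨rel1 (inv_mem (hA2C hc2)) (hA2C ha) (inv_not_mem hc2') ha2,
          mul_mem (inv_mem hc2) ha⟩)
    · intro d hd
      rcases hK2 c2 hc2 d hd.2 with h1 | h1
      · exact K_eq_one.mp h1
      · exact absurd h1 (hno d hd)
  obtain ⟨a1, a2, ha1, ha1', ha2, ha2', h12, ht1, hs2⟩ := adjust hC hD1 hD2 hA1C hA2C hDc hz1s hz0s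
    hcomm01 hc1 hc1' hc2 hc2' hsD htD ht hs (hOm _ (K_Om hC (hA1C hc1) (hA2C hc2)))
  have ha1C := hA1C ha1
  have ha2C := hA2C ha2
  have h21 : K a2 a1 = 1 := by rw [K_symm ha2C ha1C, h12]
  -- decomposition
  have hdec : ∀ g ∈ CC G, ∃ w, (w = 1 ∨ w = a1 ∨ w = a2 ∨ w = a1 * a2) ∧
      ∃ e ∈ A1 ⊓ A2, g = w * e := by
    intro g hg
    by_cases hg1 : g ∈ A1
    · by_cases hg2 : g ∈ A2
      · exact ⟨1, Or.inl rfl, g, ⟨hg1, hg2⟩, by group⟩
      · exact ⟨a1, Or.inr (Or.inl rfl), a1⁻¹ * g, mem_inf.mpr ⟨mul_mem (inv_mem ha1) hg1,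
          rel2 (inv_mem ha1C) hg (inv_not_mem ha1') hg2⟩, by group⟩
    · by_cases hg2 : g ∈ A2
      · exact ⟨a2, Or.inr (Or.inr (Or.inl rfl)), a2⁻¹ * g, mem_inf.mpr ⟨rel1 (inv_mem ha2C) hg
          (inv_not_mem ha2') hg1, mul_mem (inv_mem ha2) hg2⟩, by group⟩
      · exact ⟨a1 * a2, Or.inr (Or.inr (Or.inr rfl)), (a1 * a2)⁻¹ * g,
          mem_inf.mpr ⟨rel1 (inv_mem (mul_mem ha1C ha2C)) hg (inv_not_mem (mul_not_mem_right ha1 ha2')) hg1,
          rel2 (inv_mem (mul_mem ha1C ha2C)) hg (inv_not_mem (mul_not_mem_left ha1' ha2)) hg2⟩,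
          by group⟩
  have hDC : ∀ e ∈ A1 ⊓ A2, e ∈ CC G := fun e he => hA1C he.1
  have hwC : ∀ w, (w = 1 ∨ w = a1 ∨ w = a2 ∨ w = a1 * a2) → w ∈ CC G := by
    rintro w (rfl | rfl | rfl | rfl)
    · exact one_mem _
    · exact ha1C
    · exact ha2C
    · exact mul_mem ha1C ha2C
  have hwa1 : ∀ w, (w = 1 ∨ w = a1 ∨ w = a2 ∨ w = a1 * a2) → K w a1 = 1 := by
    rintro w (rfl | rfl | rfl | rfl)
    · exact K_one_left _
    · exact K_self _
    · exact h21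
    · rw [KL hC ha2C ha1C, K_self, h21, one_mul]
  have hwa2 : ∀ w, (w = 1 ∨ w = a1 ∨ w = a2 ∨ w = a1 * a2) → K w a2 = 1 := by
    rintro w (rfl | rfl | rfl | rfl)
    · exact K_one_left _
    · exact h12
    · exact K_self _
    · rw [KL hC ha2C ha2C, K_self, h12, one_mul]
  have hK1a : ∀ g ∈ CC G, K g a1 = 1 ∨ K g a1 = z1 := by
    intro g hg
    obtain ⟨w, hw, e, he, rfl⟩ := hdec g hg
    rw [KL hC (hDC e he) ha1C, hwa1 w hw, one_mul]
    exact hK1 e he.1 a1 ha1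
  have hK2a : ∀ g ∈ CC G, K g a2 = 1 ∨ K g a2 = z0 * z1 := by
    intro g hg
    obtain ⟨w, hw, e, he, rfl⟩ := hdec g hg
    rw [KL hC (hDC e he) ha2C, hwa2 w hw, one_mul]
    exact hK2 e he.2 a2 ha2
  -- some element of `D` has different signs
  obtain ⟨r, hrD, hr⟩ : ∃ r ∈ A1 ⊓ A2, ¬ (K r a1 = 1 ↔ K r a2 = 1) := by
    by_contra hno
    push Not at hno
    apply h.notT
    have hBle : CC G ⊓ centralizer {a1} ≤ CC G := inf_le_left
    refine ⟨CC G ⊓ centralizer {a1}, ?_, ?_, index_le_four hBle hC (hDC t htD) ?_⟩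
    · refine le_inf (Sq_le_CC hsc) ?_
      intro y hy
      rw [mem_centralizer_singleton_iff]
      exact Sq_comm_CC hy ha1C
    · have hdB : ∀ g ∈ CC G ⊓ centralizer {a1}, ∃ w, (w = 1 ∨ w = a1 ∨ w = a2 ∨ w = a1 * a2) ∧
          ∃ e ∈ A1 ⊓ A2, g = w * e ∧ Commute a1 e ∧ Commute a2 e := by
        intro g hg
        obtain ⟨w, hw, e, he, rfl⟩ := hdec g hg.1
        have h1 : K (w * e) a1 = 1 := by
          rw [K_eq_one]
          have := (mem_inf.mp hg).2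
          rw [mem_centralizer_singleton_iff] at this
          exact this
        rw [KL hC (hDC e he) ha1C, hwa1 w hw, one_mul] at h1
        have h2 := (hno e he).mp h1
        exact ⟨w, hw, e, he, rfl, (K_eq_one.mp h1).symm, (K_eq_one.mp h2).symm⟩
      have hww : ∀ w, (w = 1 ∨ w = a1 ∨ w = a2 ∨ w = a1 * a2) → ∀ v : G, Commute a1 v →
          Commute a2 v → Commute w v := by
        rintro w (rfl | rfl | rfl | rfl) v hv1 hv2
        · exact Commute.one_left _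
        · exact hv1
        · exact hv2
        · exact hv1.mul_left hv2
      have hc12 : Commute a1 a2 := K_eq_one.mp h12
      intro g hg g' hg'
      obtain ⟨w, hw, e, he, rfl, he1, he2⟩ := hdB g hg
      obtain ⟨w', hw', e', he', rfl, he1', he2'⟩ := hdB g' hg'
      have hee : Commute e e' := K_eq_one.mp (hDc e he e' he')
      have hww' : Commute w w' := hww w hw w'
        (hww w' hw' a1 (Commute.refl _) hc12.symm).symm (hww w' hw' a2 hc12 (Commute.refl _)).symm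
      exact Commute.mul_left (Commute.mul_right hww' (hww w hw e' he1' he2'))
        (Commute.mul_right (hww w' hw' e he1 he2).symm hee)
    · intro g hg
      rcases hK1a g hg with h1 | h1
      · left
        refine mem_inf.mpr ⟨hg, ?_⟩
        rw [mem_centralizer_singleton_iff]
        exact K_eq_one.mp h1
      · right
        have htC := hDC t htD
        refine mem_inf.mpr ⟨mul_mem (inv_mem htC) hg, ?_⟩
        rw [mem_centralizer_singleton_iff]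
        apply K_eq_one.mp
        have h3 : K t⁻¹ a1 = z1 := by
          rw [K_symm (inv_mem htC) ha1C, KI hC ha1C htC, ht1]
        rw [KL hC hg ha1C, h1, h3, hz1s]
  have hrC := hDC r hrD
  have htC := hDC t htD
  have hsC := hDC s hsD
  have hta1 : K t a1 = z1 := by rw [K_symm htC ha1C, ht1]
  have hsa2 : K s a2 = z0 * z1 := by rw [K_symm hsC ha2C, hs2]
  have hz2s : (z0 * z1) * (z0 * z1) = 1 := by rw [← pow_two]; exact hz2O.2
  obtain ⟨d1, hd1D, d2, hd2D, k11, k12, k21, k22⟩ : ∃ d1 ∈ A1 ⊓ A2, ∃ d2 ∈ A1 ⊓ A2,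
      K d1 a1 = z1 ∧ K d1 a2 = 1 ∧ K d2 a1 = 1 ∧ K d2 a2 = z0 * z1 := by
    rcases hK1a r hrC with h1 | h1
    · -- `r` is `d2`
      have h2 : K r a2 = z0 * z1 := by
        rcases hK2a r hrC with h2 | h2
        · exact absurd (by simp [h1, h2]) hr
        · exact h2
      rcases hK2a t htC with h3 | h3
      · exact ⟨t, htD, r, hrD, hta1, h3, h1, h2⟩
      · refine ⟨t * r, mul_mem htD hrD, r, hrD, ?_, ?_, h1, h2⟩
        · rw [KL hC hrC ha1C, hta1, h1, mul_one]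
        · rw [KL hC hrC ha2C, h3, h2, hz2s]
    · have h2 : K r a2 = 1 := by
        rcases hK2a r hrC with h2 | h2
        · exact h2
        · exact absurd (by simp [h1, h2, hz11, hz21]) hr
      rcases hK1a s hsC with h3 | h3
      · exact ⟨r, hrD, s, hsD, h1, h2, h3, hsa2⟩
      · refine ⟨r, hrD, s * r, mul_mem hsD hrD, h1, h2, ?_, ?_⟩
        · rw [KL hC hrC ha1C, h3, h1, hz1s]
        · rw [KL hC hrC ha2C, hsa2, h2, mul_one]
  have hd1C := hDC d1 hd1D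
  have hd2C := hDC d2 hd2D
  have k11' : K a1 d1 = z1 := by rw [K_symm ha1C hd1C, k11]
  have k12' : K a2 d1 = 1 := by rw [K_symm ha2C hd1C, k12]
  have k21' : K a1 d2 = 1 := by rw [K_symm ha1C hd2C, k21]
  have k22' : K a2 d2 = z0 * z1 := by rw [K_symm ha2C hd2C, k22]
  refine ⟨z0, z1, a1, d1, a2, d2, hz0O, hz1O, hz01, hz11, hz10, hOm, ha1C, hd1C, ha2C, hd2C,
    k11', k22', h12, k21', k12, hDc d1 hd1D d2 hd2D, ?_⟩
  intro e he hez
  have e1 : K e a1 = 1 := by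
    rcases hK1a e he with h1 | h1
    · exact h1
    · rcases hez a1 ha1C with h2 | h2
      · exact h2
      · exact absurd (h1.symm.trans h2) hz10
  have e2 : K e a2 = 1 := by
    rcases hK2a e he with h1 | h1
    · exact h1
    · rcases hez a2 ha2C with h2 | h2
      · exact h2
      · exact absurd (h1.symm.trans h2) hz20
  have e3 := hez d1 hd1C
  have e4 := hez d2 hd2C
  obtain ⟨w, hw, f, hf, rfl⟩ := hdec e he
  have hfC := hDC f hf
  rw [KL hC hfC hd1C, hDc f hf d1 hd1D, mul_one] at e3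
  rw [KL hC hfC hd2C, hDc f hf d2 hd2D, mul_one] at e4
  have hw1 : w = 1 := by
    rcases hw with rfl | rfl | rfl | rfl
    · rfl
    · rw [k11'] at e3
      rcases e3 with h | h
      · exact absurd h hz11
      · exact absurd h hz10
    · rw [k22'] at e4
      rcases e4 with h | h
      · exact absurd h hz21
      · exact absurd h hz20
    · rw [KL hC ha2C hd1C, k11', k12', mul_one] at e3
      rcases e3 with h | h
      · exact absurd h hz11
      · exact absurd h hz10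
  subst hw1
  rw [one_mul] at e1 e2 ⊢
  intro g hg
  obtain ⟨v, hv, f', hf', rfl⟩ := hdec g hg
  have hvC := hwC v hv
  rw [KR hC hfC (hDC f' hf'), hDc f hf f' hf', mul_one]
  rcases hv with rfl | rfl | rfl | rfl
  · exact K_one_right _
  · exact e1
  · exact e2
  · rw [KR hC hfC ha2C, e1, e2, one_mul]

end Struct

end Pool.Agent.Helper57.Core2
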